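import Mathlib
import Pool.Agent.Lib_helper15.PENT.TBox

/-!
# PENT (MP_892e4c_nt), block S6: the sum over the base vectors (helper32)
-/

set_option autoImplicit false

namespace Pool.Agent.PENT

open Finset

/-- the odd numbers `3, 5, …, 2K+1` -/
def s6_OD (K : ℕ) : Finset ℕ := (Icc 1 K).image (fun k => 2 * k + 1)

theorem s6_od_mem {K n : ℕ} (h1 : Odd n) (h2 : 3 ≤ n) (h3 : n ≤ 2 * K + 1) : n ∈ s6_OD K := by
  obtain ⟨k, rfl⟩ := h1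
  exact mem_image.2 ⟨k, mem_Icc.2 ⟨by omega, by omega⟩, rfl⟩

theorem s6_od_spec {K n : ℕ} (h : n ∈ s6_OD K) : Odd n ∧ 3 ≤ n ∧ n ≤ 2 * K + 1 := by
  obtain ⟨k, hk, rfl⟩ := mem_image.1 h
  rw [mem_Icc] at hk
  exact ⟨⟨k, rfl⟩, by omega, by omega⟩

theorem s6_od_card (K : ℕ) : (s6_OD K).card ≤ K := by
  refine card_image_le.trans ?_
  simp

theorem s6_od_sq (K : ℕ) : ∑ n ∈ s6_OD K, (1 : ℝ) / (n : ℝ) ^ 2 ≤ 1 / 4 := by
  have h : ∀ K : ℕ, ∑ k ∈ Icc 1 K, (1 : ℝ) / (((2 * k + 1 : ℕ)) : ℝ) ^ 2 ≤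
      1 / 4 - 1 / (4 * ((K : ℝ) + 1)) := by
    intro K
    induction K with
    | zero => simp
    | succ K ih =>
      rw [Finset.sum_Icc_succ_top (by omega)]
      have e : (1 : ℝ) / (((2 * (K + 1) + 1 : ℕ)) : ℝ) ^ 2 ≤
          1 / (4 * ((K : ℝ) + 1)) - 1 / (4 * (((K + 1 : ℕ) : ℝ) + 1)) := by
        push_cast
        have hK : (0 : ℝ) ≤ K := Nat.cast_nonneg K
        rw [div_sub_div _ _ (by positivity) (by positivity), div_le_div_iff₀ (by positivity)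
          (by positivity)]
        nlinarith
      linarith
  rw [s6_OD, sum_image (by intro a _ b _ h; simpa using h)]
  refine (h K).trans ?_
  have : (0 : ℝ) ≤ 1 / (4 * ((K : ℝ) + 1)) := by positivity
  linarith

theorem s6_od_cu (K : ℕ) : ∑ n ∈ s6_OD K, (1 : ℝ) / (n : ℝ) ^ 3 ≤ 1 / 12 := by
  have h : ∀ n ∈ s6_OD K, (1 : ℝ) / (n : ℝ) ^ 3 ≤ 1 / 3 * (1 / (n : ℝ) ^ 2) := by
    intro n hn
    obtain ⟨_, h3, _⟩ := s6_od_spec hn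
    have h3' : (3 : ℝ) ≤ n := by exact_mod_cast h3
    rw [div_mul_div_comm, div_le_div_iff₀ (by positivity) (by positivity)]
    nlinarith [pow_pos (show (0 : ℝ) < n by linarith) 2]
  refine (sum_le_sum h).trans ?_
  rw [← mul_sum]
  linarith [s6_od_sq K]

theorem s6_od_inv (K : ℕ) {ε : ℝ} (hε : 0 < ε) :
    ∑ n ∈ s6_OD K, (1 : ℝ) / (n : ℝ) ≤ ε * K + 1 / (16 * ε) := by
  have h : ∀ n ∈ s6_OD K, (1 : ℝ) / (n : ℝ) ≤ ε + 1 / (4 * ε) * (1 / (n : ℝ) ^ 2) := by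
    intro n hn
    obtain ⟨_, h3, _⟩ := s6_od_spec hn
    have h3' : (3 : ℝ) ≤ n := by exact_mod_cast h3
    have hn0 : (0 : ℝ) < n := by linarith
    have e : ε + 1 / (4 * ε) * (1 / (n : ℝ) ^ 2) - 1 / n = (2 * ε * n - 1) ^ 2 / (4 * ε * n ^ 2) := by
      field_simp
      ring
    have : 0 ≤ (2 * ε * n - 1) ^ 2 / (4 * ε * (n : ℝ) ^ 2) := by positivity
    linarith
  refine (sum_le_sum h).trans ?_
  rw [sum_add_distrib, sum_const, ← mul_sum, nsmul_eq_mul]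
  have h1 : ((s6_OD K).card : ℝ) ≤ K := by exact_mod_cast s6_od_card K
  have h2 := s6_od_sq K
  have h3 : 1 / (4 * ε) * ∑ n ∈ s6_OD K, (1 : ℝ) / (n : ℝ) ^ 2 ≤ 1 / (4 * ε) * (1 / 4) :=
    mul_le_mul_of_nonneg_left h2 (by positivity)
  have h4 : 1 / (4 * ε) * (1 / 4) = 1 / (16 * ε) := by field_simp; norm_num
  nlinarith

theorem s6_od_inv' (K : ℕ) : ∑ n ∈ s6_OD K, (1 : ℝ) / (n : ℝ) ≤ K := by
  have h : ∀ n ∈ s6_OD K, (1 : ℝ) / (n : ℝ) ≤ 1 := by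
    intro n hn
    obtain ⟨_, h3, _⟩ := s6_od_spec hn
    have h3' : (3 : ℝ) ≤ n := by exact_mod_cast h3
    rw [div_le_one (by linarith)]
    linarith
  refine (sum_le_sum h).trans ?_
  rw [sum_const, nsmul_eq_mul, mul_one]
  exact_mod_cast s6_od_card K

theorem s6_cls {A B : ℤ} (hAB : A ≤ B) {p : ℕ} (hp : 0 < p) (r : ℤ) :
    (((Ioc A B).filter (fun x => (p : ℤ) ∣ x - r)).card : ℝ) ≤ ((B : ℝ) - A) / p + 1 := by
  have e : (Ioc A B).filter (fun x => (p : ℤ) ∣ x - r) =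
      (Ioc A B).filter (fun x => x ≡ r [ZMOD (p : ℤ)]) := by
    apply filter_congr
    intro x _
    rw [Int.modEq_comm, Int.modEq_iff_dvd]
  rw [e]
  have h := Int.Ioc_filter_modEq_card A B (r := (p : ℤ)) (by exact_mod_cast hp) r
  have h1 : (⌊((B : ℚ) - r) / ((p : ℤ) : ℚ)⌋ : ℚ) - ⌊((A : ℚ) - r) / ((p : ℤ) : ℚ)⌋ ≤
      ((B : ℚ) - A) / p + 1 := by
    have h2 := Int.floor_le (((B : ℚ) - r) / ((p : ℤ) : ℚ))
    have h3 := Int.lt_floor_add_one (((A : ℚ) - r) / ((p : ℤ) : ℚ))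
    have h4 : ((B : ℚ) - r) / ((p : ℤ) : ℚ) - ((A : ℚ) - r) / ((p : ℤ) : ℚ) =
        ((B : ℚ) - A) / p := by
      push_cast; ring
    linarith
  have h5 : (0 : ℚ) ≤ ((B : ℚ) - A) / p + 1 := by
    have : (0 : ℚ) ≤ (B : ℚ) - A := by
      have : (A : ℚ) ≤ B := by exact_mod_cast hAB
      linarith
    positivity
  have h6 : ((((Ioc A B).filter (fun x => x ≡ r [ZMOD (p : ℤ)])).card : ℤ) : ℚ) ≤
      ((B : ℚ) - A) / p + 1 := by
    rw [h]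
    push_cast
    exact max_le (by exact_mod_cast h1) h5
  have h7 : ((((Ioc A B).filter (fun x => x ≡ r [ZMOD (p : ℤ)])).card : ℚ) : ℝ) ≤
      ((((B : ℚ) - A) / p + 1 : ℚ) : ℝ) := by
    exact_mod_cast h6
  push_cast at h7
  exact h7

theorem s6_half {k : ℕ} {y : ℤ} (h : ((2 * k + 1 : ℕ) : ℤ) ∣ 2 * y + 1) :
    ((2 * k + 1 : ℕ) : ℤ) ∣ y - (k : ℤ) := by
  obtain ⟨c, hc⟩ := h
  refine ⟨c * (k + 1) - y - 1, ?_⟩
  push_cast at hc ⊢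
  linear_combination ((k : ℤ) + 1) * hc

theorem s6_prime_half {p : ℕ} (hp : p.Prime) (hp2 : p ≠ 2) {y : ℤ} (h : (p : ℤ) ∣ 2 * y + 1) :
    (p : ℤ) ∣ y - ((p / 2 : ℕ) : ℤ) := by
  have ho : Odd p := hp.odd_of_ne_two hp2
  obtain ⟨k, rfl⟩ := ho
  have e : (2 * k + 1) / 2 = k := by omega
  rw [e]
  exact s6_half h

theorem s6_ecount {A B A' B' : ℤ} (h : A ≤ B) (h' : A' ≤ B') {K : ℕ} (h0 : -1 ≤ A')
    (hK : B' ≤ K) :
    (((Ioc A B ×ˢ Ioc A' B').filter (fun z => ¬ IsCoprime (2 * z.1) (2 * z.2 + 1))).card : ℝ) ≤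
      ∑ n ∈ s6_OD K, (((B : ℝ) - A) / n + 1) * (((B' : ℝ) - A') / n + 1) := by
  classical
  have hsub : (Ioc A B ×ˢ Ioc A' B').filter (fun z => ¬ IsCoprime (2 * z.1) (2 * z.2 + 1)) ⊆
      (s6_OD K).biUnion (fun n => ((Ioc A B).filter (fun x => (n : ℤ) ∣ x - 0)) ×ˢ
        ((Ioc A' B').filter (fun y => (n : ℤ) ∣ y - ((n / 2 : ℕ) : ℤ)))) := by
    intro z hz
    rw [mem_filter, mem_product, mem_Ioc, mem_Ioc] at hz
    obtain ⟨⟨hx, hy⟩, hc⟩ := hz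
    have hg : Int.gcd (2 * z.1) (2 * z.2 + 1) ≠ 1 := fun h1 => hc (Int.isCoprime_iff_gcd_eq_one.2 h1)
    obtain ⟨q, hq, hqd⟩ := Nat.exists_prime_and_dvd hg
    have q1 : (q : ℤ) ∣ 2 * z.1 := (Int.natCast_dvd_natCast.2 hqd).trans (Int.gcd_dvd_left _ _)
    have q2 : (q : ℤ) ∣ 2 * z.2 + 1 := (Int.natCast_dvd_natCast.2 hqd).trans (Int.gcd_dvd_right _ _)
    have hq2 : q ≠ 2 := by
      rintro rfl
      obtain ⟨c, hc⟩ := q2
      push_cast at hc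
      omega
    have hqp : Prime (q : ℤ) := Nat.prime_iff_prime_int.1 hq
    have q3 : (q : ℤ) ∣ z.1 := by
      rcases hqp.dvd_or_dvd q1 with h3 | h3
      · exfalso
        have h4 : (q : ℤ) ∣ ((2 : ℕ) : ℤ) := by exact_mod_cast h3
        have h5 : q ∣ 2 := Int.natCast_dvd_natCast.1 h4
        exact hq2 ((Nat.prime_dvd_prime_iff_eq hq Nat.prime_two).1 h5)
      · exact h3
    have hq3 : 3 ≤ q := by
      have := hq.two_le
      omega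
    have hqle : (q : ℤ) ≤ 2 * z.2 + 1 := Int.le_of_dvd (by omega) q2
    have hqK : q ≤ 2 * K + 1 := by
      have : (q : ℤ) ≤ 2 * K + 1 := by omega
      exact_mod_cast this
    rw [mem_biUnion]
    refine ⟨q, s6_od_mem (hq.odd_of_ne_two hq2) hq3 hqK, ?_⟩
    rw [mem_product, mem_filter, mem_filter, mem_Ioc, mem_Ioc]
    exact ⟨⟨hx, by simpa using q3⟩, ⟨hy, s6_prime_half hq hq2 q2⟩⟩
  have h1 := (card_le_card hsub).trans card_biUnion_le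
  have h2 : (((Ioc A B ×ˢ Ioc A' B').filter
      (fun z => ¬ IsCoprime (2 * z.1) (2 * z.2 + 1))).card : ℝ) ≤
      ∑ n ∈ s6_OD K, ((((Ioc A B).filter (fun x => (n : ℤ) ∣ x - 0)) ×ˢ
        ((Ioc A' B').filter (fun y => (n : ℤ) ∣ y - ((n / 2 : ℕ) : ℤ)))).card : ℝ) := by
    exact_mod_cast h1
  refine h2.trans (sum_le_sum ?_)
  intro n hn
  obtain ⟨_, h3, _⟩ := s6_od_spec hn
  rw [card_product]
  push_cast
  have hBA : (0 : ℝ) ≤ (B : ℝ) - A := by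
    have : (A : ℝ) ≤ B := by exact_mod_cast h
    linarith
  exact mul_le_mul (by simpa using s6_cls h (show 0 < n by omega) 0)
    (by simpa using s6_cls h' (show 0 < n by omega) ((n / 2 : ℕ) : ℤ)) (Nat.cast_nonneg _)
    (by positivity)

theorem s6_prod_right {s t : Finset ℤ} (P : ℤ → ℤ → Prop) [∀ x y, Decidable (P x y)] {c : ℝ}
    (h : ∀ y ∈ t, ((s.filter (fun x => P x y)).card : ℝ) ≤ c) :
    (((s ×ˢ t).filter (fun z => P z.1 z.2)).card : ℝ) ≤ t.card * c := by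
  rw [card_filter, sum_product_right]
  push_cast
  refine (sum_le_sum (g := fun _ => c) ?_).trans ?_
  · intro y hy
    have := h y hy
    rw [card_filter] at this
    push_cast at this
    exact this
  · rw [sum_const, nsmul_eq_mul]

theorem s6_prod_left {s t : Finset ℤ} (P : ℤ → ℤ → Prop) [∀ x y, Decidable (P x y)] {c : ℝ}
    (h : ∀ x ∈ s, ((t.filter (fun y => P x y)).card : ℝ) ≤ c) :
    (((s ×ˢ t).filter (fun z => P z.1 z.2)).card : ℝ) ≤ s.card * c := by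
  rw [card_filter, sum_product]
  push_cast
  refine (sum_le_sum (g := fun _ => c) ?_).trans ?_
  · intro y hy
    have := h y hy
    rw [card_filter] at this
    push_cast at this
    exact this
  · rw [sum_const, nsmul_eq_mul]

theorem s6_card_Ioc {A B : ℤ} (h : A ≤ B) : ((Ioc A B).card : ℝ) = (B : ℝ) - A := by
  rw [Int.card_Ioc]
  have : ((B - A).toNat : ℤ) = B - A := Int.toNat_of_nonneg (by omega)
  have h2 : (((B - A).toNat : ℤ) : ℝ) = ((B - A : ℤ) : ℝ) := by rw [this]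
  push_cast at h2
  exact_mod_cast h2

theorem s6_scount_in {A1 B1 A2 B2 : ℤ} (h1 : A1 ≤ B1) (h2 : A2 ≤ B2) {p : ℕ} (hp : p.Prime)
    (hp2 : p ≠ 2) (x y : ℤ) :
    (((Ioc A1 B1 ×ˢ Ioc A2 B2).filter
      (fun z => (p : ℤ) ∣ 4 * x * z.1 - (2 * y + 1) * (2 * z.2 + 1))).card : ℝ) ≤
      ((B1 : ℝ) - A1) * ((B2 : ℝ) - A2) / p + ((B1 : ℝ) - A1) + ((B2 : ℝ) - A2) +
      (if (p : ℤ) ∣ x ∧ (p : ℤ) ∣ 2 * y + 1 then ((B1 : ℝ) - A1) * ((B2 : ℝ) - A2) else 0) := by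
  have hp0 := hp.pos
  have hpp : Prime (p : ℤ) := Nat.prime_iff_prime_int.1 hp
  have hp3 : ¬ (p : ℤ) ∣ 2 := by
    intro h
    have h4 : (p : ℤ) ∣ ((2 : ℕ) : ℤ) := by exact_mod_cast h
    exact hp2 ((Nat.prime_dvd_prime_iff_eq hp Nat.prime_two).1 (Int.natCast_dvd_natCast.1 h4))
  have ha : (0 : ℝ) ≤ (B1 : ℝ) - A1 := by
    have : (A1 : ℝ) ≤ B1 := by exact_mod_cast h1
    linarith
  have hb : (0 : ℝ) ≤ (B2 : ℝ) - A2 := by
    have : (A2 : ℝ) ≤ B2 := by exact_mod_cast h2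
    linarith
  have hp4 : ¬ (p : ℤ) ∣ 4 := by
    intro h
    have : (p : ℤ) ∣ 2 * 2 := by simpa using h
    rcases hpp.dvd_or_dvd this with h | h <;> exact hp3 h
  by_cases hx : (p : ℤ) ∣ x
  · by_cases hy : (p : ℤ) ∣ 2 * y + 1
    · rw [if_pos ⟨hx, hy⟩]
      have hc : (((Ioc A1 B1 ×ˢ Ioc A2 B2).filter
          (fun z => (p : ℤ) ∣ 4 * x * z.1 - (2 * y + 1) * (2 * z.2 + 1))).card : ℝ) ≤
          ((B1 : ℝ) - A1) * ((B2 : ℝ) - A2) := by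
        have := card_filter_le (Ioc A1 B1 ×ˢ Ioc A2 B2)
          (fun z => (p : ℤ) ∣ 4 * x * z.1 - (2 * y + 1) * (2 * z.2 + 1))
        rw [card_product] at this
        rw [← s6_card_Ioc h1, ← s6_card_Ioc h2]
        exact_mod_cast this
      have : 0 ≤ ((B1 : ℝ) - A1) * ((B2 : ℝ) - A2) / p := by positivity
      linarith
    · rw [if_neg (fun h => hy h.2), add_zero]
      have hc := s6_prod_left (s := Ioc A1 B1) (t := Ioc A2 B2)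
        (fun x' y' => (p : ℤ) ∣ 4 * x * x' - (2 * y + 1) * (2 * y' + 1))
        (c := ((B2 : ℝ) - A2) / p + 1) (by
          intro x' _
          refine le_trans ?_ (s6_cls h2 hp0 ((p / 2 : ℕ) : ℤ))
          have : (Ioc A2 B2).filter
              (fun y' => (p : ℤ) ∣ 4 * x * x' - (2 * y + 1) * (2 * y' + 1)) ⊆
              (Ioc A2 B2).filter (fun y' => (p : ℤ) ∣ y' - ((p / 2 : ℕ) : ℤ)) := by
            intro y' hy'
            rw [mem_filter] at hy' ⊢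
            refine ⟨hy'.1, s6_prime_half hp hp2 ?_⟩
            have h5 : (p : ℤ) ∣ (2 * y + 1) * (2 * y' + 1) := by
              have h6 : (p : ℤ) ∣ 4 * x * x' := (hx.mul_left 4).mul_right x'
              have := dvd_sub h6 hy'.2
              simpa using this
            exact (hpp.dvd_or_dvd h5).resolve_left hy
          exact_mod_cast card_le_card this)
      refine hc.trans ?_
      rw [s6_card_Ioc h1]
      have : ((B1 : ℝ) - A1) * (((B2 : ℝ) - A2) / p + 1) =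
        ((B1 : ℝ) - A1) * ((B2 : ℝ) - A2) / p + ((B1 : ℝ) - A1) := by ring
      linarith
  · rw [if_neg (fun h => hx h.1), add_zero]
    have hco : IsCoprime (p : ℤ) (4 * x) := by
      refine (Prime.coprime_iff_not_dvd hpp).2 (fun h => ?_)
      rcases hpp.dvd_or_dvd h with h | h
      · exact hp4 h
      · exact hx h
    obtain ⟨u, v, huv⟩ := hco
    have hc := s6_prod_right (s := Ioc A1 B1) (t := Ioc A2 B2)
      (fun x' y' => (p : ℤ) ∣ 4 * x * x' - (2 * y + 1) * (2 * y' + 1))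
      (c := ((B1 : ℝ) - A1) / p + 1) (by
        intro y' _
        refine le_trans ?_ (s6_cls h1 hp0 (v * ((2 * y + 1) * (2 * y' + 1))))
        have : (Ioc A1 B1).filter
            (fun x' => (p : ℤ) ∣ 4 * x * x' - (2 * y + 1) * (2 * y' + 1)) ⊆
            (Ioc A1 B1).filter (fun x' => (p : ℤ) ∣ x' - v * ((2 * y + 1) * (2 * y' + 1))) := by
          intro x' hx'
          rw [mem_filter] at hx' ⊢
          refine ⟨hx'.1, ?_⟩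
          have e : x' - v * ((2 * y + 1) * (2 * y' + 1)) =
              (p : ℤ) * (u * x') + v * (4 * x * x' - (2 * y + 1) * (2 * y' + 1)) := by
            linear_combination (-x') * huv
          rw [e]
          exact dvd_add (dvd_mul_right _ _) (hx'.2.mul_left v)
        exact_mod_cast card_le_card this)
    refine hc.trans ?_
    rw [s6_card_Ioc h2]
    have : ((B2 : ℝ) - A2) * (((B1 : ℝ) - A1) / p + 1) =
      ((B1 : ℝ) - A1) * ((B2 : ℝ) - A2) / p + ((B2 : ℝ) - A2) := by ring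
    linarith

/-- the four intervals -/
structure s6_I where
  A : Fin 4 → ℤ
  B : Fin 4 → ℤ
  le : ∀ i, A i ≤ B i

/-- the length -/
noncomputable def s6_I.l (I : s6_I) (i : Fin 4) : ℝ := (I.B i : ℝ) - I.A i

theorem s6_I.l_nonneg (I : s6_I) (i : Fin 4) : 0 ≤ I.l i := by
  have : (I.A i : ℝ) ≤ I.B i := by exact_mod_cast I.le i
  unfold s6_I.l
  linarith

/-- the pairs `(x, y)` -/
noncomputable def s6_I.V (I : s6_I) : Finset (ℤ × ℤ) := Ioc (I.A 0) (I.B 0) ×ˢ Ioc (I.A 1) (I.B 1)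

/-- the pairs `(x', y')` -/
noncomputable def s6_I.W (I : s6_I) : Finset (ℤ × ℤ) := Ioc (I.A 2) (I.B 2) ×ˢ Ioc (I.A 3) (I.B 3)

/-- the determinant -/
def s6_D (z : (ℤ × ℤ) × (ℤ × ℤ)) : ℤ :=
  4 * z.1.1 * z.2.1 - (2 * z.1.2 + 1) * (2 * z.2.2 + 1)

theorem s6_card_V (I : s6_I) : (I.V.card : ℝ) = I.l 0 * I.l 1 := by
  rw [s6_I.V, card_product]
  push_cast
  rw [s6_card_Ioc (I.le 0), s6_card_Ioc (I.le 1)]
  rfl

theorem s6_card_W (I : s6_I) : (I.W.card : ℝ) = I.l 2 * I.l 3 := by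
  rw [s6_I.W, card_product]
  push_cast
  rw [s6_card_Ioc (I.le 2), s6_card_Ioc (I.le 3)]
  rfl

/-- the bound for the number of the pairs with `p ∣ D` -/
noncomputable def s6_bd (I : s6_I) (p : ℕ) : ℝ :=
  I.l 0 * I.l 1 * (I.l 2 * I.l 3 / p + I.l 2 + I.l 3) +
    (I.l 0 / p + 1) * (I.l 1 / p + 1) * (I.l 2 * I.l 3)

theorem s6_bd_nonneg (I : s6_I) (p : ℕ) : 0 ≤ s6_bd I p := by
  have h0 := I.l_nonneg 0
  have h1 := I.l_nonneg 1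
  have h2 := I.l_nonneg 2
  have h3 := I.l_nonneg 3
  unfold s6_bd
  positivity

theorem s6_scount (I : s6_I) {p : ℕ} (hp : p.Prime) (hp2 : p ≠ 2) :
    (((I.V ×ˢ I.W).filter (fun z => (p : ℤ) ∣ s6_D z)).card : ℝ) ≤ s6_bd I p := by
  have h0 := I.l_nonneg 0
  have h1 := I.l_nonneg 1
  have h2 := I.l_nonneg 2
  have h3 := I.l_nonneg 3
  rw [card_filter, sum_product]
  push_cast
  have e1 : ∀ z ∈ I.V, (∑ w ∈ I.W, if (p : ℤ) ∣ s6_D (z, w) then (1 : ℝ) else 0) ≤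
      (I.l 2 * I.l 3 / p + I.l 2 + I.l 3) +
        (if (p : ℤ) ∣ z.1 ∧ (p : ℤ) ∣ 2 * z.2 + 1 then I.l 2 * I.l 3 else 0) := by
    intro z _
    have := s6_scount_in (I.le 2) (I.le 3) hp hp2 z.1 z.2
    rw [card_filter] at this
    push_cast at this
    exact this
  refine (sum_le_sum e1).trans ?_
  rw [sum_add_distrib, sum_const, nsmul_eq_mul, s6_card_V]
  have e2 : (∑ z ∈ I.V, if (p : ℤ) ∣ z.1 ∧ (p : ℤ) ∣ 2 * z.2 + 1 then I.l 2 * I.l 3 else 0) ≤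
      (I.l 0 / p + 1) * (I.l 1 / p + 1) * (I.l 2 * I.l 3) := by
    rw [← sum_filter, sum_const, nsmul_eq_mul]
    refine mul_le_mul_of_nonneg_right ?_ (by positivity)
    have hsub : I.V.filter (fun z => (p : ℤ) ∣ z.1 ∧ (p : ℤ) ∣ 2 * z.2 + 1) ⊆
        ((Ioc (I.A 0) (I.B 0)).filter (fun x => (p : ℤ) ∣ x - 0)) ×ˢ
        ((Ioc (I.A 1) (I.B 1)).filter (fun y => (p : ℤ) ∣ y - ((p / 2 : ℕ) : ℤ))) := by
      intro z hz
      rw [mem_filter, s6_I.V, mem_product] at hz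
      rw [mem_product, mem_filter, mem_filter]
      exact ⟨⟨hz.1.1, by simpa using hz.2.1⟩, ⟨hz.1.2, s6_prime_half hp hp2 hz.2.2⟩⟩
    have hc := card_le_card hsub
    rw [card_product] at hc
    have hc' : ((I.V.filter (fun z => (p : ℤ) ∣ z.1 ∧ (p : ℤ) ∣ 2 * z.2 + 1)).card : ℝ) ≤
        (((Ioc (I.A 0) (I.B 0)).filter (fun x => (p : ℤ) ∣ x - 0)).card : ℝ) *
        (((Ioc (I.A 1) (I.B 1)).filter
          (fun y => (p : ℤ) ∣ y - ((p / 2 : ℕ) : ℤ))).card : ℝ) := by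
      exact_mod_cast hc
    exact hc'.trans (mul_le_mul (s6_cls (I.le 0) hp.pos 0)
      (s6_cls (I.le 1) hp.pos ((p / 2 : ℕ) : ℤ)) (Nat.cast_nonneg _) (by positivity))
  unfold s6_bd
  linarith

/-- the sum of `1/p` over the prime factors of an odd number -/
theorem s6_inv_le {D K : ℕ} (h0 : D ≠ 0) (ho : Odd D) (hD : D < (2 * K + 2) ^ 7) :
    ∑ p ∈ D.primeFactors, (1 : ℝ) / p ≤
      (∑ p ∈ s6_OD K, if p.Prime ∧ p ∣ D then (1 : ℝ) / p else 0) + 7 / (2 * K + 2) := by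
  classical
  rw [← sum_filter_add_sum_filter_not D.primeFactors (fun p => p ≤ 2 * K + 1)]
  refine add_le_add ?_ ?_
  · rw [← sum_filter]
    refine sum_le_sum_of_subset_of_nonneg ?_ (fun _ _ _ => by positivity)
    intro p hp
    rw [mem_filter, Nat.mem_primeFactors] at hp
    obtain ⟨⟨hp1, hp2, _⟩, hp3⟩ := hp
    have hne : p ≠ 2 := by
      rintro rfl
      obtain ⟨c, hc⟩ := ho
      omega
    rw [mem_filter]
    refine ⟨s6_od_mem (hp1.odd_of_ne_two hne) ?_ hp3, hp1, hp2⟩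
    have := hp1.two_le
    omega
  · set S := D.primeFactors.filter (fun p => ¬ p ≤ 2 * K + 1) with hS
    have h1 : ∀ p ∈ S, (1 : ℝ) / p ≤ 1 / (2 * K + 2) := by
      intro p hp
      rw [hS, mem_filter] at hp
      have : 2 * K + 2 ≤ p := by omega
      have h2 : ((2 * K + 2 : ℕ) : ℝ) ≤ p := by exact_mod_cast this
      push_cast at h2
      exact one_div_le_one_div_of_le (by positivity) h2
    have h2 : S.card < 7 := by
      have h3 : (2 * K + 2) ^ S.card ≤ ∏ p ∈ S, p := by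
        rw [← prod_const]
        refine prod_le_prod (fun _ _ => by omega) ?_
        intro p hp
        rw [hS, mem_filter] at hp
        omega
      have h4 : ∏ p ∈ S, p ∣ D :=
        (prod_dvd_prod_of_subset _ _ _ (filter_subset _ _)).trans (Nat.prod_primeFactors_dvd D)
      have h5 := Nat.le_of_dvd (Nat.pos_of_ne_zero h0) h4
      exact (Nat.pow_lt_pow_iff_right (by omega)).1 (lt_of_le_of_lt (h3.trans h5) hD)
    refine (sum_le_sum h1).trans ?_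
    rw [sum_const, nsmul_eq_mul]
    have h6 : (S.card : ℝ) ≤ 7 := by exact_mod_cast h2.le
    rw [mul_one_div]
    exact div_le_div_of_nonneg_right h6 (by positivity)

theorem s6_sum_inv (I : s6_I) {K : ℕ} (h0 : ∀ z ∈ I.V ×ˢ I.W, 0 < s6_D z)
    (hD : ∀ z ∈ I.V ×ˢ I.W, (s6_D z).natAbs < (2 * K + 2) ^ 7) :
    ∑ z ∈ I.V ×ˢ I.W, ∑ p ∈ (s6_D z).natAbs.primeFactors, (1 : ℝ) / p ≤
      (∑ p ∈ s6_OD K, 1 / p * s6_bd I p) +
        7 / (2 * K + 2) * (I.l 0 * I.l 1 * (I.l 2 * I.l 3)) := by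
  have h1 : ∀ z ∈ I.V ×ˢ I.W, ∑ p ∈ (s6_D z).natAbs.primeFactors, (1 : ℝ) / p ≤
      (∑ p ∈ s6_OD K, if p.Prime ∧ (p : ℤ) ∣ s6_D z then (1 : ℝ) / p else 0) +
        7 / (2 * K + 2) := by
    intro z hz
    have ho : Odd (s6_D z).natAbs := by
      rw [Int.natAbs_odd]
      refine ⟨2 * z.1.1 * z.2.1 - 2 * z.1.2 * z.2.2 - z.1.2 - z.2.2 - 1, ?_⟩
      simp only [s6_D]
      ring
    have := s6_inv_le (by have := h0 z hz; omega) ho (hD z hz)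
    refine this.trans (le_of_eq ?_)
    congr 1
    refine sum_congr rfl fun p _ => ?_
    simp only [Int.natCast_dvd]
  refine (sum_le_sum h1).trans ?_
  rw [sum_add_distrib, sum_const, nsmul_eq_mul, card_product]
  push_cast
  rw [s6_card_V, s6_card_W, sum_comm]
  have h2 : ∀ p ∈ s6_OD K, (∑ z ∈ I.V ×ˢ I.W,
      if p.Prime ∧ (p : ℤ) ∣ s6_D z then (1 : ℝ) / p else 0) ≤ 1 / p * s6_bd I p := by
    intro p hp
    obtain ⟨hpo, hp3, _⟩ := s6_od_spec hp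
    by_cases hpp : p.Prime
    · have h3 := s6_scount I hpp (by omega)
      have e : (∑ z ∈ I.V ×ˢ I.W, if p.Prime ∧ (p : ℤ) ∣ s6_D z then (1 : ℝ) / p else 0) =
          1 / p * (((I.V ×ˢ I.W).filter (fun z => (p : ℤ) ∣ s6_D z)).card : ℝ) := by
        simp only [hpp, true_and]
        rw [← sum_filter, sum_const, nsmul_eq_mul, mul_comm]
      rw [e]
      exact mul_le_mul_of_nonneg_left h3 (by positivity)
    · simp only [hpp, false_and, if_false, sum_const_zero]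
      exact mul_nonneg (by positivity) (s6_bd_nonneg I p)
  have h3 := sum_le_sum h2
  linarith

theorem s6_prod_ge (s : Finset ℕ) (f : ℕ → ℝ) (h0 : ∀ i, 0 ≤ f i) (h1 : ∀ i ∈ s, f i ≤ 1) :
    1 - ∑ i ∈ s, f i ≤ ∏ i ∈ s, (1 - f i) := by
  classical
  have h : (1 - ∑ i ∈ s, f i ≤ ∏ i ∈ s, (1 - f i)) ∧ 0 ≤ ∏ i ∈ s, (1 - f i) ∧
      ∏ i ∈ s, (1 - f i) ≤ 1 := by
    induction s using Finset.induction_on with
    | empty => simp
    | insert a s ha ih =>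
      obtain ⟨i1, i2, i3⟩ := ih (fun i hi => h1 i (mem_insert_of_mem hi))
      have ha0 := h0 a
      have ha1 := h1 a (mem_insert_self a s)
      rw [sum_insert ha, prod_insert ha]
      refine ⟨by nlinarith, mul_nonneg (by linarith) i2, by nlinarith⟩
  exact h.1

/-- lower bound for `φ(D)/D` -/
theorem s6_phi_ge {D : ℕ} (h0 : D ≠ 0) :
    1 - ∑ p ∈ D.primeFactors, (1 : ℝ) / p ≤ (D.totient : ℝ) / D := by
  have h1 : (D.totient : ℝ) / D = ∏ p ∈ D.primeFactors, (1 - (p : ℝ)⁻¹) := by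
    have h2 := Nat.totient_eq_mul_prod_factors D
    have h3 : ((D.totient : ℚ) : ℝ) = (((D : ℚ) * ∏ p ∈ D.primeFactors, (1 - (p : ℚ)⁻¹) : ℚ) : ℝ) := by
      rw [h2]
    push_cast at h3
    rw [h3]
    have : (D : ℝ) ≠ 0 := by exact_mod_cast h0
    field_simp
  rw [h1]
  have h2 := s6_prod_ge D.primeFactors (fun p => ((p : ℕ) : ℝ)⁻¹) (fun p => by positivity)
    (fun p hp => by
      have : 1 ≤ p := (Nat.prime_of_mem_primeFactors hp).one_le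
      have h3 : (1 : ℝ) ≤ p := by exact_mod_cast this
      exact inv_le_one_of_one_le₀ h3)
  simpa [one_div] using h2

open Classical in
/-- the good quadruples -/
noncomputable def s6_I.G (I : s6_I) : Finset ((ℤ × ℤ) × (ℤ × ℤ)) :=
  (I.V ×ˢ I.W).filter (fun z => IsCoprime (2 * z.1.1) (2 * z.1.2 + 1) ∧
    IsCoprime (2 * z.2.1) (2 * z.2.2 + 1))

theorem s6_core (I : s6_I) {K K1 K3 : ℕ} (y0 : -1 ≤ I.A 1) (y1 : I.B 1 ≤ K1) (y2 : -1 ≤ I.A 3)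
    (y3 : I.B 3 ≤ K3) (h0 : ∀ z ∈ I.V ×ˢ I.W, 0 < s6_D z)
    (hD : ∀ z ∈ I.V ×ˢ I.W, (s6_D z).natAbs < (2 * K + 2) ^ 7)
    (E1 : ∑ n ∈ s6_OD K1, (I.l 0 / n + 1) * (I.l 1 / n + 1) ≤ 26 / 100 * (I.l 0 * I.l 1))
    (E2 : ∑ n ∈ s6_OD K3, (I.l 2 / n + 1) * (I.l 3 / n + 1) ≤ 26 / 100 * (I.l 2 * I.l 3))
    (E3 : ∑ p ∈ s6_OD K, 1 / p * s6_bd I p ≤ 36 / 100 * (I.l 0 * I.l 1 * (I.l 2 * I.l 3)))
    (E4 : (7 : ℝ) / (2 * K + 2) ≤ 1 / 100) :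
    I.l 0 * I.l 1 * (I.l 2 * I.l 3) / 10 ≤
      ∑ z ∈ I.G, ((s6_D z).natAbs.totient : ℝ) / ((s6_D z).natAbs : ℝ) := by
  classical
  have l0 := I.l_nonneg 0
  have l1 := I.l_nonneg 1
  have l2 := I.l_nonneg 2
  have l3 := I.l_nonneg 3
  set N := I.l 0 * I.l 1 * (I.l 2 * I.l 3) with hN
  have hN0 : 0 ≤ N := by positivity
  have hG : ∑ z ∈ I.G, ((s6_D z).natAbs.totient : ℝ) / ((s6_D z).natAbs : ℝ) =
      ∑ z ∈ I.V ×ˢ I.W, if IsCoprime (2 * z.1.1) (2 * z.1.2 + 1) ∧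
        IsCoprime (2 * z.2.1) (2 * z.2.2 + 1) then
        ((s6_D z).natAbs.totient : ℝ) / ((s6_D z).natAbs : ℝ) else 0 := by
    rw [s6_I.G, sum_filter]
  rw [hG]
  have hp : ∀ z ∈ I.V ×ˢ I.W, 1 - (∑ p ∈ (s6_D z).natAbs.primeFactors, (1 : ℝ) / p) -
      (if ¬ IsCoprime (2 * z.1.1) (2 * z.1.2 + 1) then (1 : ℝ) else 0) -
      (if ¬ IsCoprime (2 * z.2.1) (2 * z.2.2 + 1) then (1 : ℝ) else 0) ≤
      (if IsCoprime (2 * z.1.1) (2 * z.1.2 + 1) ∧ IsCoprime (2 * z.2.1) (2 * z.2.2 + 1) then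
        ((s6_D z).natAbs.totient : ℝ) / ((s6_D z).natAbs : ℝ) else 0) := by
    intro z hz
    have hS : 0 ≤ ∑ p ∈ (s6_D z).natAbs.primeFactors, (1 : ℝ) / p :=
      sum_nonneg fun p _ => by positivity
    have hge := s6_phi_ge (D := (s6_D z).natAbs) (by have := h0 z hz; omega)
    by_cases a : IsCoprime (2 * z.1.1) (2 * z.1.2 + 1) <;>
      by_cases b : IsCoprime (2 * z.2.1) (2 * z.2.2 + 1) <;> simp only [a, b, not_true, not_false_iff,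
        if_true, if_false, and_true, and_false] <;> linarith
  refine le_trans ?_ (sum_le_sum hp)
  rw [sum_sub_distrib, sum_sub_distrib, sum_sub_distrib]
  have c1 : (∑ z ∈ I.V ×ˢ I.W, (1 : ℝ)) = N := by
    rw [sum_const, nsmul_eq_mul, mul_one, card_product]
    push_cast
    rw [s6_card_V, s6_card_W]
  have c2 := s6_sum_inv I h0 hD
  have c3 : (∑ z ∈ I.V ×ˢ I.W, if ¬ IsCoprime (2 * z.1.1) (2 * z.1.2 + 1) then (1 : ℝ) else 0) ≤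
      26 / 100 * N := by
    have hc : ∀ x ∈ I.V, (∑ y ∈ I.W,
        if ¬ IsCoprime (2 * (x, y).1.1) (2 * (x, y).1.2 + 1) then (1 : ℝ) else 0) =
        (I.l 2 * I.l 3) * (if ¬ IsCoprime (2 * x.1) (2 * x.2 + 1) then (1 : ℝ) else 0) := by
      intro x _
      rw [← s6_card_W, ← nsmul_eq_mul, ← sum_const]
    rw [sum_product, sum_congr rfl hc, ← mul_sum]
    have h1 := s6_ecount (I.le 0) (I.le 1) y0 y1
    rw [card_filter] at h1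
    push_cast at h1
    have h2 : (∑ z ∈ I.V, if ¬ IsCoprime (2 * z.1) (2 * z.2 + 1) then (1 : ℝ) else 0) ≤
        26 / 100 * (I.l 0 * I.l 1) := h1.trans E1
    calc _ ≤ (I.l 2 * I.l 3) * (26 / 100 * (I.l 0 * I.l 1)) :=
          mul_le_mul_of_nonneg_left h2 (by positivity)
      _ = _ := by rw [hN]; ring
  have c4 : (∑ z ∈ I.V ×ˢ I.W, if ¬ IsCoprime (2 * z.2.1) (2 * z.2.2 + 1) then (1 : ℝ) else 0) ≤
      26 / 100 * N := by
    have hc : ∀ x ∈ I.V, (∑ y ∈ I.W,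
        if ¬ IsCoprime (2 * (x, y).2.1) (2 * (x, y).2.2 + 1) then (1 : ℝ) else 0) =
        ∑ w ∈ I.W, (if ¬ IsCoprime (2 * w.1) (2 * w.2 + 1) then (1 : ℝ) else 0) :=
      fun x _ => rfl
    rw [sum_product, sum_congr rfl hc, sum_const, nsmul_eq_mul, s6_card_V]
    have h1 := s6_ecount (I.le 2) (I.le 3) y2 y3
    rw [card_filter] at h1
    push_cast at h1
    have h2 : (∑ z ∈ I.W, if ¬ IsCoprime (2 * z.1) (2 * z.2 + 1) then (1 : ℝ) else 0) ≤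
        26 / 100 * (I.l 2 * I.l 3) := h1.trans E2
    calc _ ≤ (I.l 0 * I.l 1) * (26 / 100 * (I.l 2 * I.l 3)) :=
          mul_le_mul_of_nonneg_left h2 (by positivity)
      _ = _ := by rw [hN]; ring
  have c5 : (7 : ℝ) / (2 * K + 2) * N ≤ 1 / 100 * N := mul_le_mul_of_nonneg_right E4 hN0
  linarith

/-- the error terms for the coprimality -/
theorem s6_E1 {a b s : ℝ} {K : ℕ} (hs : 10 ^ 10 ≤ s) (ha1 : 14 / 1000 * s ≤ a)
    (ha2 : a ≤ 16 / 1000 * s) (hb1 : 4 / 1000 * s ≤ b) (hb2 : b ≤ 6 / 1000 * s)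
    (hK : (K : ℝ) ≤ s) :
    ∑ n ∈ s6_OD K, (a / n + 1) * (b / n + 1) ≤ 26 / 100 * (a * b) := by
  have hs0 : 0 < s := by linarith [show (0 : ℝ) < 10 ^ 10 by norm_num]
  have ha0 : 0 < a := by nlinarith
  have hb0 : 0 < b := by nlinarith
  have e : ∀ n ∈ s6_OD K, (a / n + 1) * (b / n + 1) =
      a * b * (1 / (n : ℝ) ^ 2) + (a + b) * (1 / (n : ℝ)) + 1 := by
    intro n hn
    obtain ⟨_, h3, _⟩ := s6_od_spec hn
    have h3' : (n : ℝ) ≠ 0 := by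
      have : n ≠ 0 := by omega
      exact_mod_cast this
    field_simp
    ring
  rw [sum_congr rfl e, sum_add_distrib, sum_add_distrib, ← mul_sum, ← mul_sum, sum_const,
    nsmul_eq_mul, mul_one]
  have h1 := mul_le_mul_of_nonneg_left (s6_od_sq K) (show 0 ≤ a * b by positivity)
  have h2 := mul_le_mul_of_nonneg_left (s6_od_inv K (ε := 1 / 100000) (by norm_num))
    (show 0 ≤ a + b by positivity)
  have h3 : ((s6_OD K).card : ℝ) ≤ K := by exact_mod_cast s6_od_card K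
  have h4 : 56 / 1000000 * s ^ 2 ≤ a * b := by
    have := mul_le_mul ha1 hb1 (by positivity) ha0.le
    nlinarith
  have h5 : (a + b) * (1 / 100000 * (K : ℝ) + 1 / (16 * (1 / 100000))) ≤
      (22 / 1000 * s) * (1 / 100000 * s + 6250) := by
    have e1 : (1 : ℝ) / (16 * (1 / 100000)) = 6250 := by norm_num
    rw [e1]
    exact mul_le_mul (by linarith) (by linarith) (by positivity) (by positivity)
  nlinarith

/-- the error terms for the determinants -/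
theorem s6_E3 (I : s6_I) {s3 s1 : ℝ} {K : ℕ} (hs3 : 10 ^ 10 ≤ s3) (hs1 : 10 ^ 10 ≤ s1)
    (a1 : 14 / 1000 * s3 ≤ I.l 0) (a2 : I.l 0 ≤ 16 / 1000 * s3) (b1 : 4 / 1000 * s3 ≤ I.l 1)
    (b2 : I.l 1 ≤ 6 / 1000 * s3) (c1 : 14 / 1000 * s1 ≤ I.l 2)
    (c2 : I.l 2 ≤ 16 / 1000 * s1) (d1 : 4 / 1000 * s1 ≤ I.l 3) (d2 : I.l 3 ≤ 6 / 1000 * s1)
    (k1 : (K : ℝ) ^ 2 ≤ s1) (k3 : (K : ℝ) ≤ s3) :
    ∑ p ∈ s6_OD K, 1 / p * s6_bd I p ≤ 36 / 100 * (I.l 0 * I.l 1 * (I.l 2 * I.l 3)) := by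
  have hp10 : (0 : ℝ) < 10 ^ 10 := by norm_num
  set a := I.l 0
  set b := I.l 1
  set c := I.l 2
  set d := I.l 3
  have hs0 : 0 < s3 := by linarith
  have hs1' : 0 < s1 := by linarith
  have ha0 : 0 < a := by nlinarith
  have hb0 : 0 < b := by nlinarith
  have hc0 : 0 < c := by nlinarith
  have hd0 : 0 < d := by nlinarith
  have hK0 : (0 : ℝ) ≤ K := Nat.cast_nonneg K
  have e : ∀ p ∈ s6_OD K, 1 / p * s6_bd I p =
      (a * b * (c * d)) * (1 / (p : ℝ) ^ 2) + a * b * (c + d) * (1 / (p : ℝ)) +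
      ((a * b * (c * d)) * (1 / (p : ℝ) ^ 3) + (a + b) * (c * d) * (1 / (p : ℝ) ^ 2) +
        c * d * (1 / (p : ℝ))) := by
    intro n hn
    obtain ⟨_, h3, _⟩ := s6_od_spec hn
    have h3' : (n : ℝ) ≠ 0 := by
      have : n ≠ 0 := by omega
      exact_mod_cast this
    simp only [s6_bd]
    field_simp
    ring
  rw [sum_congr rfl e, sum_add_distrib, sum_add_distrib, sum_add_distrib, sum_add_distrib,
    ← mul_sum, ← mul_sum, ← mul_sum, ← mul_sum, ← mul_sum]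
  have h1 := mul_le_mul_of_nonneg_left (s6_od_sq K) (show 0 ≤ a * b * (c * d) by positivity)
  have h2 := mul_le_mul_of_nonneg_left (s6_od_inv' K) (show 0 ≤ a * b * (c + d) by positivity)
  have h3 := mul_le_mul_of_nonneg_left (s6_od_cu K) (show 0 ≤ a * b * (c * d) by positivity)
  have h4 := mul_le_mul_of_nonneg_left (s6_od_sq K) (show 0 ≤ (a + b) * (c * d) by positivity)
  have h5 := mul_le_mul_of_nonneg_left (s6_od_inv' K) (show 0 ≤ c * d by positivity)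
  have h6 : 56 / 1000000 * s3 ^ 2 ≤ a * b := by
    have := mul_le_mul a1 b1 (by positivity) ha0.le
    nlinarith
  have h7 : 56 / 1000000 * s1 ^ 2 ≤ c * d := by
    have := mul_le_mul c1 d1 (by positivity) hc0.le
    nlinarith
  have hKs : (K : ℝ) ≤ s1 / 10 ^ 5 := by
    rw [le_div_iff₀ (by norm_num)]
    by_contra hcon
    rw [not_le] at hcon
    have h8 : s1 * s1 < ((K : ℝ) * 10 ^ 5) * ((K : ℝ) * 10 ^ 5) :=
      mul_lt_mul'' hcon hcon hs1'.le hs1'.le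
    nlinarith
  have h9 : (c + d) * (K : ℝ) ≤ 1 / 100 * (c * d) := by
    have : (c + d) * (K : ℝ) ≤ (22 / 1000 * s1) * (s1 / 10 ^ 5) :=
      mul_le_mul (by linarith) hKs hK0 (by positivity)
    nlinarith
  have h10 : (a + b) * (1 / 4) + K ≤ 1 / 100 * (a * b) := by nlinarith
  have h11 : a * b * ((c + d) * (K : ℝ)) ≤ a * b * (1 / 100 * (c * d)) :=
    mul_le_mul_of_nonneg_left h9 (by positivity)
  have h12 : ((a + b) * (1 / 4) + K) * (c * d) ≤ (1 / 100 * (a * b)) * (c * d) :=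
    mul_le_mul_of_nonneg_right h10 (by positivity)
  nlinarith

theorem s6_len {u v : ℝ} : v - u - 1 ≤ ((⌊v⌋ : ℤ) : ℝ) - ((⌊u⌋ : ℤ) : ℝ) ∧
    ((⌊v⌋ : ℤ) : ℝ) - ((⌊u⌋ : ℤ) : ℝ) ≤ v - u + 1 := by
  have h1 := Int.floor_le v
  have h2 := Int.lt_floor_add_one v
  have h3 := Int.floor_le u
  have h4 := Int.lt_floor_add_one u
  constructor <;> linarith

/-- the intervals for the scales `s3, s1` -/
noncomputable def s6_int (s3 s1 : ℝ) (h3 : 0 ≤ s3) (h1 : 0 ≤ s1) : s6_I where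
  A := ![⌊3 / 2 * s3⌋, ⌊(s3 - 1) / 2⌋, ⌊3 / 2 * s1⌋, ⌊(s1 - 1) / 2⌋]
  B := ![⌊303 / 200 * s3⌋, ⌊(101 / 100 * s3 - 1) / 2⌋, ⌊303 / 200 * s1⌋,
    ⌊(101 / 100 * s1 - 1) / 2⌋]
  le := by
    intro i
    fin_cases i <;> simp only [Fin.zero_eta, Fin.isValue, Fin.mk_one, Fin.reduceFinMk,
      Matrix.cons_val_zero, Matrix.cons_val_one, Matrix.cons_val] <;>
      exact Int.floor_le_floor (by linarith)

theorem s6_mem_x {s : ℝ} {x : ℤ} (h : x ∈ Ioc ⌊3 / 2 * s⌋ ⌊303 / 200 * s⌋) :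
    3 * s < 2 * (x : ℝ) ∧ 2 * (x : ℝ) ≤ 303 / 100 * s := by
  rw [mem_Ioc, Int.floor_lt, Int.le_floor] at h
  constructor <;> linarith [h.1, h.2]

theorem s6_mem_y {s : ℝ} {y : ℤ} (h : y ∈ Ioc ⌊(s - 1) / 2⌋ ⌊(101 / 100 * s - 1) / 2⌋) :
    s < 2 * (y : ℝ) + 1 ∧ 2 * (y : ℝ) + 1 ≤ 101 / 100 * s := by
  rw [mem_Ioc, Int.floor_lt, Int.le_floor] at h
  constructor <;> linarith [h.1, h.2]

theorem s6_mem {s3 s1 : ℝ} {h3 : 0 ≤ s3} {h1 : 0 ≤ s1} {z : (ℤ × ℤ) × (ℤ × ℤ)}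
    (hz : z ∈ (s6_int s3 s1 h3 h1).V ×ˢ (s6_int s3 s1 h3 h1).W) :
    (3 * s3 < 2 * (z.1.1 : ℝ) ∧ 2 * (z.1.1 : ℝ) ≤ 303 / 100 * s3) ∧
    (s3 < 2 * (z.1.2 : ℝ) + 1 ∧ 2 * (z.1.2 : ℝ) + 1 ≤ 101 / 100 * s3) ∧
    (3 * s1 < 2 * (z.2.1 : ℝ) ∧ 2 * (z.2.1 : ℝ) ≤ 303 / 100 * s1) ∧
    (s1 < 2 * (z.2.2 : ℝ) + 1 ∧ 2 * (z.2.2 : ℝ) + 1 ≤ 101 / 100 * s1) := by
  rw [mem_product, s6_I.V, s6_I.W, mem_product, mem_product] at hz
  exact ⟨s6_mem_x hz.1.1, s6_mem_y hz.1.2, s6_mem_x hz.2.1, s6_mem_y hz.2.2⟩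

theorem s6_D_bd {s3 s1 : ℝ} {h3 : 0 < s3} {h1 : 0 < s1} {z : (ℤ × ℤ) × (ℤ × ℤ)}
    (hz : z ∈ (s6_int s3 s1 h3.le h1.le).V ×ˢ (s6_int s3 s1 h3.le h1.le).W) :
    0 < (s6_D z : ℝ) ∧ (s6_D z : ℝ) ≤ 92 / 10 * (s3 * s1) := by
  obtain ⟨⟨a1, a2⟩, ⟨b1, b2⟩, ⟨c1, c2⟩, ⟨d1, d2⟩⟩ := s6_mem hz
  have e : (s6_D z : ℝ) = (2 * (z.1.1 : ℝ)) * (2 * (z.2.1 : ℝ)) -
      (2 * (z.1.2 : ℝ) + 1) * (2 * (z.2.2 : ℝ) + 1) := by
    simp only [s6_D]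
    push_cast
    ring
  have f1 : (3 * s3) * (3 * s1) < (2 * (z.1.1 : ℝ)) * (2 * (z.2.1 : ℝ)) :=
    mul_lt_mul'' a1 c1 (by positivity) (by positivity)
  have f2 : (2 * (z.1.1 : ℝ)) * (2 * (z.2.1 : ℝ)) ≤ (303 / 100 * s3) * (303 / 100 * s1) :=
    mul_le_mul a2 c2 (by linarith) (by positivity)
  have f3 : (2 * (z.1.2 : ℝ) + 1) * (2 * (z.2.2 : ℝ) + 1) ≤ (101 / 100 * s3) * (101 / 100 * s1) :=
    mul_le_mul b2 d2 (by linarith) (by positivity)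
  have f4 : 0 ≤ (2 * (z.1.2 : ℝ) + 1) * (2 * (z.2.2 : ℝ) + 1) :=
    mul_nonneg (by linarith) (by linarith)
  have f5 : 0 < s3 * s1 := mul_pos h3 h1
  rw [e]
  constructor <;> nlinarith

/-- the base vectors of a quadruple -/
def s6_g (z : (ℤ × ℤ) × (ℤ × ℤ)) : (ℤ × ℤ) × (ℤ × ℤ) :=
  ((2 * z.1.1, 2 * z.1.2 + 1), (2 * z.2.2 + 1, 2 * z.2.1))

theorem s6_g_inj : Function.Injective s6_g := by
  rintro ⟨⟨a, b⟩, c, d⟩ ⟨⟨a', b'⟩, c', d'⟩ h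
  simp only [s6_g, Prod.mk.injEq] at h
  obtain ⟨⟨h1, h2⟩, h3, h4⟩ := h
  have e1 : a = a' := by omega
  have e2 : b = b' := by omega
  have e3 : d = d' := by omega
  have e4 : c = c' := by omega
  subst e1 e2 e3 e4
  rfl

theorem s6_g_dt (z : (ℤ × ℤ) × (ℤ × ℤ)) : dt (s6_g z).1 (s6_g z).2 = s6_D z := by
  simp only [s6_g, dt, s6_D]
  ring

theorem s6_g_mem {s : Fin 5 → ℝ} {h3 : 0 ≤ s 3} {h1 : 0 ≤ s 1} {z : (ℤ × ℤ) × (ℤ × ℤ)}
    (hz : z ∈ (s6_int (s 3) (s 1) h3 h1).G) : s6_g z ∈ BasF s := by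
  classical
  rw [s6_I.G, mem_filter] at hz
  obtain ⟨hz, k1, k2⟩ := hz
  obtain ⟨⟨a1, a2⟩, ⟨b1, b2⟩, ⟨c1, c2⟩, ⟨d1, d2⟩⟩ := s6_mem hz
  have hc : ∀ (t : ℝ) (n : ℤ), 0 ≤ t → (n : ℝ) ≤ 4 * t → n ≤ ⌈4 * t⌉ := by
    intro t n _ hn
    have : (n : ℝ) ≤ ⌈4 * t⌉ := hn.trans (Int.le_ceil _)
    exact_mod_cast this
  have hn : ∀ n : ℤ, (0 : ℝ) ≤ n → 0 ≤ n := fun n h => by exact_mod_cast h
  rw [BasF, mem_filter, mem_product, mem_product, mem_product, mem_Icc, mem_Icc, mem_Icc, mem_Icc]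
  simp only [s6_g]
  refine ⟨⟨⟨⟨hn _ ?_, hc _ _ h3 ?_⟩, ⟨hn _ ?_, hc _ _ h3 ?_⟩⟩,
    ⟨⟨hn _ ?_, hc _ _ h1 ?_⟩, ⟨hn _ ?_, hc _ _ h1 ?_⟩⟩⟩, ?_⟩
  any_goals (push_cast; linarith)
  exact {
    b3 := by
      refine ⟨?_, ?_, ?_, ?_⟩ <;> push_cast <;> linarith
    b1 := by
      refine ⟨?_, ?_, ?_, ?_⟩ <;> push_cast <;> linarith
    e3 := ⟨z.1.1, by ring⟩
    o3 := ⟨z.1.2, by ring⟩
    o1 := ⟨z.2.2, by ring⟩
    e1 := ⟨z.2.1, by ring⟩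
    c3 := k1
    c1 := k2.symm }

/-- the lengths of the intervals -/
theorem s6_lens {s3 s1 : ℝ} (h3 : 10 ^ 10 ≤ s3) (h1 : 10 ^ 10 ≤ s1) (p3 : 0 ≤ s3) (p1 : 0 ≤ s1) :
    ((14 / 1000 * s3 ≤ (s6_int s3 s1 p3 p1).l 0 ∧ (s6_int s3 s1 p3 p1).l 0 ≤ 16 / 1000 * s3) ∧
    (4 / 1000 * s3 ≤ (s6_int s3 s1 p3 p1).l 1 ∧ (s6_int s3 s1 p3 p1).l 1 ≤ 6 / 1000 * s3)) ∧
    ((14 / 1000 * s1 ≤ (s6_int s3 s1 p3 p1).l 2 ∧ (s6_int s3 s1 p3 p1).l 2 ≤ 16 / 1000 * s1) ∧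
    (4 / 1000 * s1 ≤ (s6_int s3 s1 p3 p1).l 3 ∧ (s6_int s3 s1 p3 p1).l 3 ≤ 6 / 1000 * s1)) := by
  have l0 : (s6_int s3 s1 p3 p1).l 0 =
    ((⌊303 / 200 * s3⌋ : ℤ) : ℝ) - ((⌊3 / 2 * s3⌋ : ℤ) : ℝ) := rfl
  have l1 : (s6_int s3 s1 p3 p1).l 1 =
    ((⌊(101 / 100 * s3 - 1) / 2⌋ : ℤ) : ℝ) - ((⌊(s3 - 1) / 2⌋ : ℤ) : ℝ) := rfl
  have l2 : (s6_int s3 s1 p3 p1).l 2 =
    ((⌊303 / 200 * s1⌋ : ℤ) : ℝ) - ((⌊3 / 2 * s1⌋ : ℤ) : ℝ) := rfl
  have l3 : (s6_int s3 s1 p3 p1).l 3 =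
    ((⌊(101 / 100 * s1 - 1) / 2⌋ : ℤ) : ℝ) - ((⌊(s1 - 1) / 2⌋ : ℤ) : ℝ) := rfl
  have m0 := s6_len (u := 3 / 2 * s3) (v := 303 / 200 * s3)
  have m1 := s6_len (u := (s3 - 1) / 2) (v := (101 / 100 * s3 - 1) / 2)
  have m2 := s6_len (u := 3 / 2 * s1) (v := 303 / 200 * s1)
  have m3 := s6_len (u := (s1 - 1) / 2) (v := (101 / 100 * s1 - 1) / 2)
  rw [← l0] at m0
  rw [← l1] at m1
  rw [← l2] at m2
  rw [← l3] at m3
  refine ⟨⟨⟨?_, ?_⟩, ?_, ?_⟩, ⟨?_, ?_⟩, ?_, ?_⟩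
  · linarith [m0.1]
  · linarith [m0.2]
  · linarith [m1.1]
  · linarith [m1.2]
  · linarith [m2.1]
  · linarith [m2.2]
  · linarith [m3.1]
  · linarith [m3.2]

theorem s6_D_natAbs {s3 s1 : ℝ} {h3 : 0 < s3} {h1 : 0 < s1} {z : (ℤ × ℤ) × (ℤ × ℤ)}
    (hz : z ∈ (s6_int s3 s1 h3.le h1.le).V ×ˢ (s6_int s3 s1 h3.le h1.le).W) :
    (((s6_D z).natAbs : ℕ) : ℝ) = (s6_D z : ℝ) := by
  have g1 := (s6_D_bd (h3 := h3) (h1 := h1) hz).1
  have : 0 < s6_D z := by exact_mod_cast g1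
  rw [← Int.cast_natCast, Int.natAbs_of_nonneg this.le]

/-- the cut-off -/
theorem s6_cut {s3 s1 : ℝ} (h3 : 0 < s3) (hs1 : 10 ^ 10 ≤ s1) (h13 : s1 ≤ s3 ^ 2)
    (h31 : s3 ≤ s1 ^ 2) : ∃ K : ℕ, (K : ℝ) ^ 2 ≤ s1 ∧ (K : ℝ) ≤ s3 ∧
      (7 : ℝ) / (2 * K + 2) ≤ 1 / 100 ∧ 92 / 10 * (s3 * s1) < (2 * (K : ℝ) + 2) ^ 7 := by
  have p1 : 0 < s1 := by linarith [show (0 : ℝ) < 10 ^ 10 by norm_num]
  have q1 : ((⌊Real.sqrt s1⌋₊ : ℕ) : ℝ) ≤ Real.sqrt s1 := Nat.floor_le (Real.sqrt_nonneg _)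
  have q2 : Real.sqrt s1 < ((⌊Real.sqrt s1⌋₊ : ℕ) : ℝ) + 1 := Nat.lt_floor_add_one _
  have q3 : Real.sqrt s1 ^ 2 = s1 := Real.sq_sqrt p1.le
  have q4 : (10 : ℝ) ^ 5 ≤ Real.sqrt s1 := by
    rw [show (10 : ℝ) ^ 5 = Real.sqrt (10 ^ 10) by
      rw [show (10 : ℝ) ^ 10 = (10 ^ 5) ^ 2 by norm_num]
      exact (Real.sqrt_sq (by norm_num)).symm]
    exact Real.sqrt_le_sqrt hs1
  have q5 : Real.sqrt s1 ≤ s3 := by
    rw [Real.sqrt_le_left h3.le]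
    exact h13
  have hK0 : (0 : ℝ) ≤ ((⌊Real.sqrt s1⌋₊ : ℕ) : ℝ) := Nat.cast_nonneg _
  refine ⟨⌊Real.sqrt s1⌋₊, ?_, q1.trans q5, ?_, ?_⟩
  · have := pow_le_pow_left₀ hK0 q1 2
    rwa [q3] at this
  · rw [div_le_div_iff₀ (by positivity) (by norm_num)]
    linarith
  · have g5 : (2 * Real.sqrt s1) ^ 7 ≤ (2 * ((⌊Real.sqrt s1⌋₊ : ℕ) : ℝ) + 2) ^ 7 :=
      pow_le_pow_left₀ (by positivity) (by linarith) 7
    have g6 : (2 * Real.sqrt s1) ^ 7 = 128 * s1 ^ 3 * Real.sqrt s1 := by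
      have : (2 * Real.sqrt s1) ^ 7 = 128 * (Real.sqrt s1 ^ 2) ^ 3 * Real.sqrt s1 := by ring
      rw [this, q3]
    have g7 : s3 * s1 ≤ s1 ^ 2 * s1 := mul_le_mul_of_nonneg_right h31 p1.le
    have g7' : s1 ^ 2 * s1 = s1 ^ 3 := by ring
    have g8 : 0 < s1 ^ 3 := by positivity
    have g9 : 128 * s1 ^ 3 * 1 ≤ 128 * s1 ^ 3 * Real.sqrt s1 :=
      mul_le_mul_of_nonneg_left (by linarith [show (1 : ℝ) ≤ 10 ^ 5 by norm_num]) (by positivity)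
    linarith

theorem s6_app {s3 s1 : ℝ} (hs3 : 10 ^ 10 ≤ s3) (hs1 : 10 ^ 10 ≤ s1) (p3 : 0 < s3) (p1 : 0 < s1)
    (h13 : s1 ≤ s3 ^ 2) (h31 : s3 ≤ s1 ^ 2) :
    (s6_int s3 s1 p3.le p1.le).l 0 * (s6_int s3 s1 p3.le p1.le).l 1 *
      ((s6_int s3 s1 p3.le p1.le).l 2 * (s6_int s3 s1 p3.le p1.le).l 3) / 10 ≤
      ∑ z ∈ (s6_int s3 s1 p3.le p1.le).G,
        ((s6_D z).natAbs.totient : ℝ) / ((s6_D z).natAbs : ℝ) := by
  obtain ⟨⟨⟨a1, a2⟩, b1, b2⟩, ⟨c1, c2⟩, d1, d2⟩ := s6_lens hs3 hs1 p3.le p1.le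
  obtain ⟨K, k1, k2, k3, k4⟩ := s6_cut p3 hs1 h13 h31
  have hfl : ∀ t : ℝ, 0 < t → (⌊(101 / 100 * t - 1) / 2⌋ : ℤ) ≤ ((⌊t⌋₊ : ℕ) : ℤ) := by
    intro t ht
    rw [Int.natCast_floor_eq_floor ht.le]
    exact Int.floor_le_floor (by linarith)
  have hlow : ∀ t : ℝ, 0 < t → (-1 : ℤ) ≤ ⌊(t - 1) / 2⌋ := by
    intro t ht
    rw [Int.le_floor]
    push_cast
    linarith
  refine s6_core _ (K := K) (K1 := ⌊s3⌋₊) (K3 := ⌊s1⌋₊) (hlow _ p3) (hfl _ p3)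
    (hlow _ p1) (hfl _ p1) ?_ ?_
    (s6_E1 hs3 a1 a2 b1 b2 (Nat.floor_le p3.le))
    (s6_E1 hs1 c1 c2 d1 d2 (Nat.floor_le p1.le))
    (s6_E3 _ hs3 hs1 a1 a2 b1 b2 c1 c2 d1 d2 k1 k2) k3
  · intro z hz
    have := (s6_D_bd (h3 := p3) (h1 := p1) hz).1
    exact_mod_cast this
  · intro z hz
    have g2 := (s6_D_bd (h3 := p3) (h1 := p1) hz).2
    have g4 : (((s6_D z).natAbs : ℕ) : ℝ) < (((2 * K + 2) ^ 7 : ℕ) : ℝ) := by
      rw [s6_D_natAbs (h3 := p3) (h1 := p1) hz]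
      push_cast
      exact lt_of_le_of_lt g2 k4
    exact_mod_cast g4

theorem s6_N {s3 s1 a b c d : ℝ} (p3 : 0 < s3) (p1 : 0 < s1) (a1 : 14 / 1000 * s3 ≤ a)
    (b1 : 4 / 1000 * s3 ≤ b) (c1 : 14 / 1000 * s1 ≤ c) (d1 : 4 / 1000 * s1 ≤ d) :
    1 / 10 ^ 13 ≤ 1 / (92 / 10 * (s3 * s1)) ^ 2 * (a * b * (c * d) / 10) := by
  have h3 : (14 / 1000 * s3) * (4 / 1000 * s3) ≤ a * b :=
    mul_le_mul a1 b1 (by positivity) (le_trans (by positivity) a1)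
  have h4 : (14 / 1000 * s1) * (4 / 1000 * s1) ≤ c * d :=
    mul_le_mul c1 d1 (by positivity) (le_trans (by positivity) c1)
  have h5 : ((14 / 1000 * s3) * (4 / 1000 * s3)) * ((14 / 1000 * s1) * (4 / 1000 * s1)) ≤
      a * b * (c * d) :=
    mul_le_mul h3 h4 (by positivity) (le_trans (by positivity) h3)
  rw [one_div_mul_eq_div, le_div_iff₀ (by positivity)]
  have h7 : 0 < s3 ^ 2 * s1 ^ 2 := by positivity
  have e1 : 1 / 10 ^ 13 * (92 / 10 * (s3 * s1)) ^ 2 =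
      (1 / 10 ^ 13 * (92 / 10) ^ 2) * (s3 ^ 2 * s1 ^ 2) := by ring
  have e2 : ((14 / 1000 * s3) * (4 / 1000 * s3)) * ((14 / 1000 * s1) * (4 / 1000 * s1)) =
      (56 / 1000000) ^ 2 * (s3 ^ 2 * s1 ^ 2) := by ring
  rw [e1]
  rw [e2] at h5
  linarith

theorem s6_term {s3 s1 : ℝ} (p3 : 0 < s3) (p1 : 0 < s1) {z : (ℤ × ℤ) × (ℤ × ℤ)}
    (hz : z ∈ (s6_int s3 s1 p3.le p1.le).G) :
    1 / (92 / 10 * (s3 * s1)) ^ 2 *
      (((s6_D z).natAbs.totient : ℝ) / ((s6_D z).natAbs : ℝ)) ≤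
      ((s6_D z).natAbs.totient : ℝ) / (s6_D z : ℝ) ^ 3 := by
  rw [s6_I.G, mem_filter] at hz
  obtain ⟨g1, g2⟩ := s6_D_bd (h3 := p3) (h1 := p1) hz.1
  rw [s6_D_natAbs (h3 := p3) (h1 := p1) hz.1]
  have hT : 0 < s3 * s1 := mul_pos p3 p1
  have e : ((s6_D z).natAbs.totient : ℝ) / (s6_D z : ℝ) ^ 3 =
      1 / (s6_D z : ℝ) ^ 2 * (((s6_D z).natAbs.totient : ℝ) / (s6_D z : ℝ)) := by
    field_simp
  rw [e]
  refine mul_le_mul_of_nonneg_right ?_ (by positivity)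
  exact one_div_le_one_div_of_le (by positivity) (pow_le_pow_left₀ g1.le g2 2)

theorem s6_F_nonneg {s : Fin 5 → ℝ} (p3 : 0 < s 3) (p1 : 0 < s 1) {z : (ℤ × ℤ) × (ℤ × ℤ)}
    (hz : z ∈ BasF s) : 0 ≤ ((dt z.1 z.2).natAbs.totient : ℝ) / (dt z.1 z.2 : ℝ) ^ 3 := by
  classical
  rw [BasF, mem_filter] at hz
  have hb := hz.2
  have := bx_dt (k := 1) (l := 1) (by norm_num) p3 p1 (by norm_num) (by norm_num) (by norm_num)
    (by norm_num) hb.b3 hb.b1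
  have h5 : 0 < s 3 * s 1 := mul_pos p3 p1
  have h6 : 0 < (dt z.1 z.2 : ℝ) := by nlinarith
  positivity

/-- block B6: the sum over the base vectors -/
theorem bas_sum_pr : ∃ c A₀ : ℝ, 0 < c ∧ ∀ s : Fin 5 → ℝ, A₀ ≤ s 1 → A₀ ≤ s 3 →
    s 1 ≤ s 3 ^ 2 → s 3 ≤ s 1 ^ 2 →
    c ≤ ∑ z ∈ BasF s, ((dt z.1 z.2).natAbs.totient : ℝ) / (dt z.1 z.2 : ℝ) ^ 3 := by
  classical
  refine ⟨1 / 10 ^ 13, 10 ^ 10, by norm_num, ?_⟩
  intro s hs1 hs3 h13 h31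
  have hp10 : (0 : ℝ) < 10 ^ 10 := by norm_num
  have p1 : 0 < s 1 := by linarith
  have p3 : 0 < s 3 := by linarith
  have core := s6_app hs3 hs1 p3 p1 h13 h31
  obtain ⟨⟨⟨a1, a2⟩, b1, b2⟩, ⟨c1, c2⟩, d1, d2⟩ := s6_lens hs3 hs1 p3.le p1.le
  have hsub : (s6_int (s 3) (s 1) p3.le p1.le).G.image s6_g ⊆ BasF s := by
    intro z hz
    obtain ⟨w, hw, rfl⟩ := mem_image.1 hz
    exact s6_g_mem hw
  have h1 : ∑ z ∈ (s6_int (s 3) (s 1) p3.le p1.le).G,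
      ((s6_D z).natAbs.totient : ℝ) / (s6_D z : ℝ) ^ 3 ≤
      ∑ z ∈ BasF s, ((dt z.1 z.2).natAbs.totient : ℝ) / (dt z.1 z.2 : ℝ) ^ 3 := by
    refine le_trans (le_of_eq ?_) (sum_le_sum_of_subset_of_nonneg hsub
      (fun z hz _ => s6_F_nonneg p3 p1 hz))
    rw [sum_image (fun a _ b _ h => s6_g_inj h)]
    refine sum_congr rfl fun z _ => ?_
    rw [s6_g_dt]
  refine le_trans ?_ h1
  refine le_trans ?_ (sum_le_sum (fun z hz => s6_term p3 p1 hz))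
  rw [← mul_sum]
  exact (s6_N p3 p1 a1 b1 c1 d1).trans
    (mul_le_mul_of_nonneg_left core (by positivity))

end Pool.Agent.PENT
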